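import Mathlib

/-! The deterministic windows lemma. -/

namespace Pool.Agent.H791Z.ERW

open Finset Filter

/-- `n` is the first time at which `y` is at least `j` -/
def First (y : ℕ → ℝ) (j : ℕ) (n : ℕ) : Prop := (∀ k < n, y k < j) ∧ (j : ℝ) ≤ y n

/-- within `K` steps after first reaching level `j` there starts a stretch of `N` steps above `j` -/
def Good (y : ℕ → ℝ) (K N j : ℕ) : Prop :=
  ∃ n, First y j n ∧ ∃ a ≤ K, ∀ k ≤ N, (j : ℝ) ≤ y (n + a + k)

variable {y : ℕ → ℝ}

lemma step_le (hs : ∀ n, |y (n + 1) - y n| ≤ 1) (n k : ℕ) : y (n + k) ≤ y n + k := by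
  induction k with
  | zero => simp
  | succ k ih =>
    have := (abs_le.1 (hs (n + k))).2
    rw [← add_assoc]
    push_cast
    linarith

lemma First.lt (h0 : y 0 = 0) (hs : ∀ n, |y (n + 1) - y n| ≤ 1) {j n : ℕ} (h : First y j n) :
    y n < j + 1 := by
  rcases n with _ | n
  · rw [h0]; positivity
  · have := h.1 n (Nat.lt_succ_self n)
    have := (abs_le.1 (hs n)).2
    linarith

lemma First.gap (h0 : y 0 = 0) (hs : ∀ n, |y (n + 1) - y n| ≤ 1) {a j n m : ℕ} (h : First y a n)
    (h' : (j : ℝ) ≤ y m) (P : ℕ) (hP : a + P ≤ j) : n + P ≤ m := by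
  have h1 : ((a + P : ℕ) : ℝ) ≤ j := by exact_mod_cast hP
  push_cast at h1
  have hn : n ≤ m := by
    by_contra hlt
    have := h.1 m (not_le.1 hlt)
    have : (0 : ℝ) ≤ P := Nat.cast_nonneg P
    linarith
  obtain ⟨k, rfl⟩ := Nat.exists_eq_add_of_le hn
  have h2 := step_le hs n k
  have h3 := h.lt h0 hs
  have h4 : (P : ℝ) < k + 1 := by linarith
  have : P < k + 1 := by exact_mod_cast h4
  omega

lemma First.unique {j n m : ℕ} (h : First y j n) (h' : First y j m) : n = m := by
  rcases lt_trichotomy n m with h1 | h1 | h1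
  · exact absurd (h'.1 n h1) (not_lt.2 h.2)
  · exact h1
  · exact absurd (h.1 m h1) (not_lt.2 h'.2)

lemma exists_first {j : ℕ} (h : ∃ n, (j : ℝ) ≤ y n) : ∃ n, First y j n := by
  classical
  exact ⟨Nat.find h, fun k hk => not_le.1 (Nat.find_min h hk), Nat.find_spec h⟩

lemma unbounded_of_freq {C : ℕ} (hf : ∃ᶠ n : ℕ in atTop, (n : ℝ) ≤ C * y n) (hC : 1 ≤ C) (j : ℕ) :
    ∃ n, (j : ℝ) ≤ y n := by
  obtain ⟨n, h1, h2⟩ := (hf.and_eventually (eventually_ge_atTop (C * j))).exists
  refine ⟨n, ?_⟩
  have h3 : ((C * j : ℕ) : ℝ) ≤ n := by exact_mod_cast h2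
  push_cast at h3
  have h4 : (0 : ℝ) < C := by exact_mod_cast hC
  exact le_of_mul_le_mul_left (h3.trans h1) h4

open Classical in
theorem windows (h0 : y 0 = 0) (hs : ∀ n, |y (n + 1) - y n| ≤ 1) {C : ℕ} (hC : 1 ≤ C)
    (hf : ∃ᶠ n : ℕ in atTop, (n : ℝ) ≤ C * y n) (L N : ℕ → ℕ) (hL : ∀ i, L i + N i + 1 ≤ L (i + 1)) :
    ∃ᶠ M in atTop, ∃ i < 8 * C,
      M ≤ 2 * ((range M).filter (fun j => Good y (8 * C * L i) (N i) j)).card := by
  choose T hT using fun j => exists_first (unbounded_of_freq hf hC j)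
  have Tgap : ∀ a P j, a + P ≤ j → T a + P ≤ T j := fun a P j h => (hT a).gap h0 hs (hT j).2 P h
  have Lmono : ∀ i i', i < i' → L i + N i + 1 ≤ L i' := by
    intro i i' h
    induction h with
    | refl => exact hL i
    | step _ ih => exact ih.trans (le_trans (by omega) (hL _))
  set I := 8 * C with hI
  rw [frequently_atTop]
  intro M0
  obtain ⟨n, h1, h2⟩ := (hf.and_eventually (eventually_ge_atTop (C * (M0 + 2 * L I + 2)))).exists
  have hCpos : (0 : ℝ) < C := by exact_mod_cast hC
  have hy : ((M0 + 2 * L I + 2 : ℕ) : ℝ) ≤ y n := by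
    have h3 : ((C * (M0 + 2 * L I + 2) : ℕ) : ℝ) ≤ n := by exact_mod_cast h2
    rw [Nat.cast_mul] at h3
    exact le_of_mul_le_mul_left (h3.trans h1) hCpos
  have hy0 : 0 ≤ y n := le_trans (Nat.cast_nonneg _) hy
  set m := ⌊y n⌋₊ with hm
  have hm1 : M0 + 2 * L I + 2 ≤ m := Nat.le_floor hy
  have hTm : T m ≤ n := by
    by_contra hlt
    exact absurd ((hT m).1 n (not_le.1 hlt)) (not_lt.2 (Nat.floor_le hy0))
  have hn : n < C * (m + 1) := by
    have h3 : (n : ℝ) < C * ((m : ℝ) + 1) :=
      h1.trans_lt (mul_lt_mul_of_pos_left (Nat.lt_floor_add_one _) hCpos)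
    exact_mod_cast h3
  obtain ⟨M, hM⟩ : ∃ M, m = M + L I := ⟨m - L I, by omega⟩
  have hn2 : T m ≤ 2 * C * M := by
    have : C * (m + 1) ≤ C * (2 * M) := Nat.mul_le_mul_left _ (by omega)
    nlinarith
  refine ⟨M, by omega, ?_⟩
  -- backtracking windows
  let B : ℕ → Finset ℕ := fun i => (range M).filter
    (fun j => ∃ k ≤ N i, y (T (j + L i) + k) < j)
  have hB : ∑ i ∈ range I, (B i).card ≤ T m := by
    have key : ∀ s ∈ (range I).sigma B, ∃ τ, T (s.2 + L s.1) ≤ τ ∧ τ ≤ T (s.2 + L s.1) + N s.1 ∧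
        y τ < s.2 ∧ (s.2 : ℝ) ≤ y τ + 1 := by
      rintro ⟨i, j⟩ hs'
      have hex := (mem_filter.1 (mem_sigma.1 hs').2).2
      have hex' : ∃ k, k ≤ N i ∧ y (T (j + L i) + k) < j := hex
      obtain ⟨k1, k2⟩ := Nat.find_spec hex'
      refine ⟨T (j + L i) + Nat.find hex', by simp, by simpa using k1, k2, ?_⟩
      rcases hk : Nat.find hex' with _ | k
      · rw [hk] at k2
        have := (hT (j + L i)).2
        push_cast at this
        have : (0 : ℝ) ≤ L i := Nat.cast_nonneg _
        simp only [add_zero] at k2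
        linarith
      · have h3 := Nat.find_min hex' (show k < Nat.find hex' by omega)
        have h4 : (j : ℝ) ≤ y (T (j + L i) + k) := by
          by_contra hlt
          exact h3 ⟨by omega, not_le.1 hlt⟩
        have := (abs_le.1 (hs (T (j + L i) + k))).1
        rw [← add_assoc]
        simp only
        linarith
    choose! τ t1 t2 t3 t4 using key
    rw [← card_sigma, ← card_range (T m)]
    refine card_le_card_of_injOn τ ?_ ?_
    · rintro ⟨i, j⟩ hs'
      have a1 := t2 _ hs'
      have hi := mem_range.1 (mem_sigma.1 hs').1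
      have hj := mem_range.1 (mem_filter.1 (mem_sigma.1 hs').2).1
      have a2 := Tgap (j + L i) (N i + 1) m (by have := Lmono i I hi; simp only at hj; omega)
      simp only [coe_range, Set.mem_Iio] at a1 ⊢
      omega
    · rintro ⟨i, j⟩ hs1 ⟨i', j'⟩ hs2 he
      have a1 := t1 _ hs1
      have a2 := t2 _ hs1
      have a3 := t3 _ hs1
      have a4 := t4 _ hs1
      have b1 := t1 _ hs2
      have b2 := t2 _ hs2
      have b3 := t3 _ hs2
      have b4 := t4 _ hs2
      rw [he] at a1 a2 a3 a4
      simp only at a1 a2 a3 a4 b1 b2 b3 b4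
      have c1 : (j : ℝ) < j' + 1 := by linarith
      have c2 : (j' : ℝ) < j + 1 := by linarith
      have c3 : j < j' + 1 := by exact_mod_cast c1
      have c4 : j' < j + 1 := by exact_mod_cast c2
      obtain rfl : j = j' := by omega
      obtain rfl : i = i' := by
        rcases lt_trichotomy i i' with h | h | h
        · have := Tgap (j + L i) (N i + 1) (j + L i') (by have := Lmono i i' h; omega)
          omega
        · exact h
        · have := Tgap (j + L i') (N i' + 1) (j + L i) (by have := Lmono i' i h; omega)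
          omega
      rfl
  obtain ⟨i, hi, hBi⟩ : ∃ i ∈ range I, 4 * (B i).card ≤ M := by
    by_contra hcon
    push Not at hcon
    have h3 : ∑ i ∈ range I, (M + 1) ≤ ∑ i ∈ range I, 4 * (B i).card :=
      sum_le_sum fun i hi => hcon i hi
    rw [← mul_sum, sum_const, card_range, smul_eq_mul] at h3
    have : I * (M + 1) ≤ 4 * (2 * C * M) := h3.trans (Nat.mul_le_mul_left _ (hB.trans hn2))
    rw [hI] at this
    nlinarith
  refine ⟨i, mem_range.1 hi, ?_⟩
  -- slow levels
  let D : Finset ℕ := (range M).filter (fun j => T j + I * L i < T (j + L i))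
  have hD : 4 * D.card ≤ M := by
    have hLi : L i ≤ L I := by have := Lmono i I (mem_range.1 hi); omega
    have h3 : ∑ j ∈ range M, T (j + L i) ≤ ∑ j ∈ range M, T j + L i * T m := by
      have e1 := sum_range_add T (L i) M
      have e2 := sum_range_add T M (L i)
      have e3 : ∑ k ∈ range (L i), T (M + k) ≤ L i * T m := by
        rw [← smul_eq_mul, ← card_range (L i), ← sum_const, card_range]
        refine sum_le_sum fun k hk => ?_
        have := Tgap (M + k) 0 m (by have := mem_range.1 hk; omega)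
        omega
      rw [add_comm (L i) M] at e1
      simp only [add_comm (L i)] at e1
      omega
    have h4 : ∑ j ∈ range M, (T j + if T j + I * L i < T (j + L i) then I * L i + 1 else 0) ≤
        ∑ j ∈ range M, T (j + L i) := by
      refine sum_le_sum fun j _ => ?_
      have := Tgap j 0 (j + L i) (by omega)
      split_ifs <;> omega
    rw [sum_add_distrib, ← sum_filter, sum_const, smul_eq_mul] at h4
    change _ + D.card * _ ≤ _ at h4
    have h5 : D.card * (I * L i + 1) ≤ L i * (2 * C * M) :=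
      le_trans (by omega) (Nat.mul_le_mul_left _ hn2)
    have h6 : (4 * D.card) * (I * L i + 1) ≤ M * (I * L i + 1) := by
      rw [hI] at h5 ⊢
      nlinarith
    exact Nat.le_of_mul_le_mul_right h6 (Nat.succ_pos _)
  have hcov : range M ⊆ (range M).filter (fun j => Good y (I * L i) (N i) j) ∪ (B i ∪ D) := by
    intro j hj
    by_contra hcon
    simp only [mem_union, B, D, mem_filter, hj, true_and, not_or, not_exists, not_and, not_lt]
      at hcon
    obtain ⟨c1, c2, c3⟩ := hcon
    have := Tgap j 0 (j + L i) (by omega)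
    refine c1 ⟨T j, hT j, T (j + L i) - T j, by omega, fun k hk => ?_⟩
    rw [show T j + (T (j + L i) - T j) = T (j + L i) by omega]
    exact c2 k hk
  have h7 := (card_le_card hcov).trans ((card_union_le _ _).trans
    (Nat.add_le_add_left (card_union_le _ _) _))
  rw [card_range] at h7
  omega

open Classical in
lemma residue (p : ℕ → Prop) {M P : ℕ} (hP : 1 ≤ P) (hM : P ≤ M)
    (h : M ≤ 2 * ((range M).filter p).card) :
    ∃ r < P, M / P + 1 ≤ 4 * ((range (M / P + 1)).filter (fun k => p (r + P * k))).card := by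
  by_contra hcon
  push Not at hcon
  set q := M / P + 1
  have h1 : ((range M).filter p).card ≤
      ∑ r ∈ range P, ((range q).filter (fun k => p (r + P * k))).card := by
    rw [← card_sigma]
    refine card_le_card_of_injOn (fun j => ⟨j % P, j / P⟩) ?_ ?_
    · intro j hj
      simp only [coe_filter, mem_range, Set.mem_setOf_eq] at hj
      simp only [mem_coe, mem_sigma, mem_range, mem_filter, Nat.mod_add_div]
      exact ⟨Nat.mod_lt _ hP, Nat.lt_succ_of_le (Nat.div_le_div_right hj.1.le), hj.2⟩
    · intro a _ b _ hab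
      simp only [Sigma.mk.injEq, heq_eq_eq] at hab
      rw [← Nat.mod_add_div a P, ← Nat.mod_add_div b P, hab.1, hab.2]
  have h2 : ∑ r ∈ range P, (4 * ((range q).filter (fun k => p (r + P * k))).card + 1) ≤
      ∑ r ∈ range P, q := sum_le_sum fun r hr => hcon r (mem_range.1 hr)
  rw [sum_add_distrib, ← mul_sum, sum_const, sum_const, card_range, smul_eq_mul, smul_eq_mul] at h2
  have h3 : P * q ≤ M + P := by
    have := Nat.mul_div_le M P
    simp only [q, mul_add, mul_one]
    omega
  omega

end Pool.Agent.H791Z.ERW
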