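import Mathlib

/-! Path weights that factor over sites. -/

namespace Pool.Agent.H791Z.ERW

open Finset
open scoped ENNReal

variable {V E : Type} [AddCommGroup V] [DecidableEq V] (vec : E → V)

/-- displacement of a list of steps -/
def pos (u : List E) : V := (u.map vec).sum

omit [DecidableEq V] in
@[simp] lemma pos_nil : pos vec [] = 0 := rfl

omit [DecidableEq V] in
@[simp] lemma pos_cons (e : E) (u : List E) : pos vec (e :: u) = vec e + pos vec u := by
  simp [pos]

omit [DecidableEq V] in
@[simp] lemma pos_append (u v : List E) : pos vec (u ++ v) = pos vec u + pos vec v := by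
  simp [pos]

/-- the steps made from site `z` by the path started at `x` -/
def loc (z : V) : V → List E → List E
  | _, [] => []
  | x, e :: u => (if x = z then [e] else []) ++ loc z (x + vec e) u

lemma loc_append (z : V) (u v : List E) : ∀ x,
    loc vec z x (u ++ v) = loc vec z x u ++ loc vec z (x + pos vec u) v := by
  induction u with
  | nil => intro x; simp [loc]
  | cons e u ih => intro x; simp [loc, ih, add_assoc]

lemma loc_shift (z a : V) (u : List E) : ∀ x, loc vec (z + a) (x + a) u = loc vec z x u := by
  induction u with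
  | nil => intro x; simp [loc]
  | cons e u ih =>
    intro x
    simp only [loc, add_left_inj]
    rw [add_right_comm x a, ih]

/-- the sites from which a step is made -/
def dep : V → List E → Finset V
  | _, [] => ∅
  | x, e :: u => insert x (dep (x + vec e) u)

lemma loc_eq_nil {z : V} (u : List E) : ∀ x, z ∉ dep vec x u → loc vec z x u = [] := by
  induction u with
  | nil => intro x _; rfl
  | cons e u ih =>
    intro x h
    simp only [dep, mem_insert, not_or] at h
    simp [loc, ih _ h.2, Ne.symm h.1]

lemma dep_append (u v : List E) : ∀ x,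
    dep vec x (u ++ v) = dep vec x u ∪ dep vec (x + pos vec u) v := by
  induction u with
  | nil => intro x; simp [dep]
  | cons e u ih => intro x; simp [dep, ih, add_assoc]

lemma dep_shift (a : V) (u : List E) : ∀ x, dep vec (x + a) u = (dep vec x u).image (· + a) := by
  induction u with
  | nil => intro x; simp [dep]
  | cons e u ih =>
    intro x
    simp only [dep, image_insert]
    rw [add_right_comm x a, ih]

lemma mem_dep {z : V} (u : List E) : ∀ x, z ∈ dep vec x u →
    ∃ k < u.length, z = x + pos vec (u.take k) := by
  induction u with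
  | nil => intro x h; simp [dep] at h
  | cons e u ih =>
    intro x h
    simp only [dep, mem_insert] at h
    rcases h with rfl | h
    · exact ⟨0, by simp, by simp⟩
    · obtain ⟨k, hk, rfl⟩ := ih _ h
      exact ⟨k + 1, by simpa using hk, by simp [add_assoc]⟩

lemma length_loc (z : V) (u : List E) : (loc vec z 0 u).length =
    ((range u.length).filter (fun k => pos vec (u.take k) = z)).card := by
  induction u using List.reverseRecOn with
  | nil => simp [loc]
  | append_singleton u e ih =>
    rw [loc_append, List.length_append, ih, List.length_append, List.length_singleton,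
      range_add_one, filter_insert]
    have : (range u.length).filter (fun k => pos vec ((u ++ [e]).take k) = z) =
        (range u.length).filter (fun k => pos vec (u.take k) = z) := by
      refine filter_congr fun k hk => ?_
      rw [List.take_append_of_le_length (mem_range.1 hk).le]
    rw [this]
    simp only [List.take_left', zero_add, loc, List.append_nil]
    split_ifs with h
    · rw [card_insert_of_notMem (by simp)]; rfl
    · rfl

variable (φ : List E → ℝ≥0∞)

/-- the weight of a path -/
noncomputable def W (x : V) (u : List E) : ℝ≥0∞ := ∏ z ∈ dep vec x u, φ (loc vec z x u)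

variable {φ}

lemma W_eq (h1 : φ [] = 1) {x : V} {u : List E} {F : Finset V} (hF : dep vec x u ⊆ F) :
    W vec φ x u = ∏ z ∈ F, φ (loc vec z x u) :=
  prod_subset hF fun z _ hz => by rw [loc_eq_nil vec u x hz, h1]

lemma W_shift (x : V) (u : List E) : W vec φ x u = W vec φ 0 u := by
  have := dep_shift vec x u 0
  rw [zero_add] at this
  rw [W, this, prod_image (fun a _ b _ h => add_right_cancel h), W]
  refine prod_congr rfl fun z _ => ?_
  rw [← loc_shift vec z x u 0, zero_add]

lemma W_ne_zero (h0 : ∀ l, φ l ≠ 0) (x : V) (u : List E) : W vec φ x u ≠ 0 :=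
  prod_ne_zero_iff.2 fun _ _ => h0 _

lemma W_compare (h1 : φ [] = 1) (hm : ∀ l l', φ (l ++ l') ≤ φ l) (R : Set V) (s γ t η : List E)
    (hs : ∀ z ∈ dep vec 0 s, z ∉ R) (hη : ∀ z ∈ dep vec (pos vec s - pos vec η) η, z ∉ R)
    (ht : ∀ z ∈ dep vec (pos vec s + pos vec γ) t, z ∈ R) :
    W vec φ 0 (s ++ γ ++ t) * W vec φ 0 (η ++ γ) ≤ W vec φ 0 s * W vec φ 0 (η ++ γ ++ t) := by
  set x0 := pos vec s - pos vec η with hx0
  rw [← W_shift vec x0 (η ++ γ), ← W_shift vec x0 (η ++ γ ++ t)]
  set F := dep vec 0 (s ++ γ ++ t) ∪ dep vec x0 (η ++ γ ++ t)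
  have s1 : dep vec 0 s ⊆ F := by
    refine Subset.trans ?_ subset_union_left
    rw [List.append_assoc, dep_append]
    exact subset_union_left
  have s2 : dep vec x0 (η ++ γ) ⊆ F := by
    refine Subset.trans ?_ subset_union_right
    rw [dep_append vec (η ++ γ)]
    exact subset_union_left
  rw [W_eq vec h1 (subset_union_left : _ ⊆ F), W_eq vec h1 (subset_union_right : _ ⊆ F),
    W_eq vec h1 s1, W_eq vec h1 s2, ← prod_mul_distrib, ← prod_mul_distrib]
  refine prod_le_prod' fun z _ => ?_
  have e1 : x0 + pos vec η = pos vec s := by rw [hx0]; abel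
  have le1 : ∀ l, φ l ≤ 1 := fun l => by simpa [h1] using hm [] l
  by_cases hz : z ∈ R
  · have a1 : loc vec z 0 s = [] := loc_eq_nil vec s 0 fun h => hs z h hz
    have a2 : loc vec z x0 η = [] := loc_eq_nil vec η x0 fun h => hη z h hz
    rw [List.append_assoc s, List.append_assoc η, loc_append vec z s, loc_append vec z η (γ ++ t),
      a1, a2, e1, zero_add, h1, one_mul]
    exact mul_le_of_le_one_right' (le1 _)
  · have a1 : loc vec z (pos vec s + pos vec γ) t = [] := loc_eq_nil vec t _ fun h => hz (ht z h)
    have e2 : x0 + pos vec (η ++ γ) = pos vec s + pos vec γ := by rw [pos_append, ← add_assoc, e1]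
    rw [loc_append vec z (η ++ γ) t, e2, a1, List.append_nil, List.append_assoc s,
      loc_append vec z s]
    exact mul_le_mul_left (hm _ _) _

lemma W_fresh (h1 : φ [] = 1) (R : Set V) (s t : List E)
    (hs : ∀ z ∈ dep vec 0 s, z ∉ R) (ht : ∀ z ∈ dep vec (pos vec s) t, z ∈ R) :
    W vec φ 0 s * W vec φ 0 t = W vec φ 0 (s ++ t) := by
  rw [← W_shift vec (pos vec s) t]
  have s1 : dep vec 0 s ⊆ dep vec 0 (s ++ t) := by
    rw [dep_append]; exact subset_union_left
  have s2 : dep vec (pos vec s) t ⊆ dep vec 0 (s ++ t) := by
    rw [dep_append, zero_add]; exact subset_union_right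
  rw [W_eq vec h1 s1, W_eq vec h1 s2, W, ← prod_mul_distrib]
  refine prod_congr rfl fun z _ => ?_
  rw [loc_append, zero_add]
  by_cases hz : z ∈ R
  · rw [loc_eq_nil vec s 0 fun h => hs z h hz, h1, one_mul, List.nil_append]
  · rw [loc_eq_nil vec t _ fun h => hz (ht z h), h1, mul_one, List.append_nil]

end Pool.Agent.H791Z.ERW
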