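import Mathlib
import Pool.Agent.H791Z.ERW.Weight
import Pool.Agent.H791Z.ERW.Det

/-! The probabilistic core: walks whose path weights factor over sites. -/

namespace Pool.Agent.H791Z.ERW

open Finset Filter MeasureTheory
open scoped ENNReal

variable {V E : Type} [AddCommGroup V] (vec : E → V)

/-- cylinder of paths starting with the steps `u` from the origin -/
def Cyl (u : List E) : Set (ℕ → V) := {X | ∀ k ≤ u.length, X k = pos vec (u.take k)}

/-- nearest neighbour paths from the origin -/
def NN : Set (ℕ → V) := {X | ∀ n, ∃ u : List E, u.length = n ∧ X ∈ Cyl vec u}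

variable {vec}

lemma Cyl.take {X : ℕ → V} {u : List E} (h : X ∈ Cyl vec u) (n : ℕ) : X ∈ Cyl vec (u.take n) := by
  intro k hk
  rw [List.length_take] at hk
  rw [List.take_take, min_eq_left (le_trans hk (min_le_left _ _))]
  exact h k (le_trans hk (min_le_right _ _))

lemma Cyl.last {X : ℕ → V} {u : List E} (h : X ∈ Cyl vec u) : X u.length = pos vec u := by
  simpa using h _ le_rfl

lemma Cyl.of_append {X : ℕ → V} {u t : List E} (h : X ∈ Cyl vec (u ++ t)) : X ∈ Cyl vec u := by
  simpa using Cyl.take h u.length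

lemma Cyl.append_apply {X : ℕ → V} {u t : List E} (h : X ∈ Cyl vec (u ++ t)) {k : ℕ}
    (hk : k ≤ t.length) : X (u.length + k) = pos vec u + pos vec (t.take k) := by
  rw [h _ (by simpa using hk), List.take_length_add_append, pos_append]

lemma Cyl.unique (hinj : Function.Injective vec) {X : ℕ → V} (u : List E) :
    ∀ u' : List E, X ∈ Cyl vec u → X ∈ Cyl vec u' → u.length = u'.length → u = u' := by
  induction u using List.reverseRecOn with
  | nil => intro u' _ _ h; exact (List.length_eq_zero_iff.1 h.symm).symm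
  | append_singleton u e ih =>
    intro u' h h' hl
    rcases List.eq_nil_or_concat u' with rfl | ⟨v, f, rfl⟩
    · simp at hl
    · rw [List.concat_eq_append] at h' hl ⊢
      obtain rfl : u = v := ih v (Cyl.of_append h) (Cyl.of_append h') (by simpa using hl)
      have a := Cyl.last h
      have b := Cyl.last h'
      rw [hl, b] at a
      simp only [pos_append, pos_cons, pos_nil, add_zero, add_right_inj] at a
      rw [hinj a]

lemma NN.extend (hinj : Function.Injective vec) {X : ℕ → V} (hX : X ∈ NN vec) {u : List E}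
    (h : X ∈ Cyl vec u) (N : ℕ) : ∃ t : List E, t.length = N ∧ X ∈ Cyl vec (u ++ t) := by
  obtain ⟨w, hw, hXw⟩ := hX (u.length + N)
  have : u = w.take u.length := Cyl.unique hinj u _ h (Cyl.take hXw _) (by simp [hw])
  refine ⟨w.drop u.length, by simp [hw], ?_⟩
  have e : u ++ w.drop u.length = w := by
    conv_lhs => rw [this]
    simp [hw]
  rwa [e]

lemma NN.zero {X : ℕ → V} (hX : X ∈ NN vec) : X ∈ Cyl vec [] := by
  obtain ⟨u, hu, h⟩ := hX 0
  rwa [List.length_eq_zero_iff.1 hu] at h

lemma NN.step {X : ℕ → V} (hX : X ∈ NN vec) (n : ℕ) : ∃ e, X (n + 1) = X n + vec e := by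
  obtain ⟨u, hu, h⟩ := hX (n + 1)
  rcases List.eq_nil_or_concat u with rfl | ⟨v, f, rfl⟩
  · simp at hu
  · rw [List.concat_eq_append] at h hu
    have hv : v.length = n := by simpa using hu
    refine ⟨f, ?_⟩
    have a := Cyl.last h
    have b := Cyl.last (Cyl.of_append h)
    rw [hu] at a
    rw [hv] at b
    simp [a, b]

variable (h : V →+ ℝ)

/-- the path stays above level `j` during `N` steps from time `n` -/
def StayEv (n N j : ℕ) : Set (ℕ → V) := {X | ∀ k ≤ N, (j : ℝ) ≤ h (X (n + k))}

variable (vec) in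
/-- first hitting lists -/
def FHL (j : ℕ) (s : List E) : Prop := First (fun k => h (pos vec (s.take k))) j s.length

lemma Cyl.first_iff {X : ℕ → V} {s : List E} (hX : X ∈ Cyl vec s) (j : ℕ) :
    First (fun k => h (X k)) j s.length ↔ FHL vec h j s := by
  unfold FHL First
  simp only [hX _ le_rfl]
  refine and_congr_left fun _ => forall_congr' fun k => forall_congr' fun hk => ?_
  rw [hX k hk.le]

lemma h_pos_ge (hb : ∀ e, |h (vec e)| ≤ 1) (u : List E) : -(u.length : ℝ) ≤ h (pos vec u) := by
  induction u with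
  | nil => simp
  | cons e u ih =>
    have := (abs_le.1 (hb e)).1
    simp only [List.length_cons, pos_cons, map_add]
    push_cast
    linarith

lemma h_pos_replicate {e0 : E} (he : h (vec e0) = 1) (k : ℕ) :
    h (pos vec (List.replicate k e0)) = k := by
  induction k with
  | zero => simp
  | succ k ih => simp [List.replicate_succ, ih, he, add_comm]

lemma NN.y0 {X : ℕ → V} (hX : X ∈ NN vec) : h (X 0) = 0 := by
  rw [NN.zero hX 0 le_rfl]; simp

lemma NN.ystep (hb : ∀ e, |h (vec e)| ≤ 1) {X : ℕ → V} (hX : X ∈ NN vec) (n : ℕ) :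
    |h (X (n + 1)) - h (X n)| ≤ 1 := by
  obtain ⟨e, he⟩ := NN.step hX n
  simpa [he] using hb e

lemma FHL.lt (hb : ∀ e, |h (vec e)| ≤ 1) {j : ℕ} {s : List E} (hs : FHL vec h j s) :
    h (pos vec s) < j + 1 := by
  rcases List.eq_nil_or_concat s with rfl | ⟨v, f, rfl⟩
  · simp; positivity
  · rw [List.concat_eq_append] at hs ⊢
    have h1 := hs.1 v.length (by simp)
    have := (abs_le.1 (hb f)).2
    simp only [List.take_left', pos_append, pos_cons, pos_nil, add_zero, map_add] at h1 ⊢
    linarith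

section meas
variable [MeasurableSpace V] [DiscreteMeasurableSpace V]

omit [AddCommGroup V] in
lemma meas_coord (n : ℕ) (p : V → Prop) : Measurable (fun X : ℕ → V => p (X n)) :=
  (measurable_of_countable' p).comp (measurable_pi_apply n)
where measurable_of_countable' (p : V → Prop) : Measurable p := Measurable.of_discrete

lemma meas_Cyl (u : List E) : MeasurableSet (Cyl vec u) := by
  refine measurableSet_setOf.2 (Measurable.forall fun k => Measurable.imp measurable_const ?_)
  exact meas_coord k (fun v => v = pos vec (u.take k))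

lemma meas_StayEv (n N j : ℕ) : MeasurableSet (StayEv h n N j) := by
  refine measurableSet_setOf.2 (Measurable.forall fun k => Measurable.imp measurable_const ?_)
  exact meas_coord (n + k) (fun v => (j : ℝ) ≤ h v)

end meas

/-- the setting -/
structure Setting [DecidableEq V] [MeasurableSpace V] (vec : E → V) (h : V →+ ℝ) (e0 : E)
    (φ : List E → ℝ≥0∞) (Q : Measure (ℕ → V)) : Prop where
  inj : Function.Injective vec
  bound : ∀ e, |h (vec e)| ≤ 1
  up : h (vec e0) = 1
  one : φ [] = 1
  mono : ∀ l l', φ (l ++ l') ≤ φ l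
  ne : ∀ l, φ l ≠ 0
  cyl : ∀ u, Q (Cyl vec u) = W vec φ 0 u
  nn : ∀ᵐ X ∂Q, X ∈ NN vec

variable [DecidableEq V] [MeasurableSpace V] [DiscreteMeasurableSpace V] [Fintype E] {h} {e0 : E}
  {φ : List E → ℝ≥0∞} {Q : Measure (ℕ → V)}

lemma Setting.union (S : Setting vec h e0 φ Q) (u : List E) (N : ℕ) (T : Set (List E))
    (hT : ∀ t ∈ T, t.length = N) :
    Q (⋃ t ∈ T, Cyl vec (u ++ t)) = ∑' t : T, W vec φ 0 (u ++ t) := by
  rw [measure_biUnion (Set.to_countable T) ?_ (fun t _ => meas_Cyl _)]
  · simp only [S.cyl]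
  · intro t ht t' ht' hne
    refine Set.disjoint_left.2 fun X h1 h2 => hne ?_
    exact List.append_cancel_left (Cyl.unique S.inj _ _ h1 h2 (by simp [hT t ht, hT t' ht']))

lemma Setting.stay_le (S : Setting vec h e0 φ Q) (u : List E) (N j : ℕ) :
    Q (Cyl vec u ∩ StayEv h u.length N j) ≤ ∑' t : {t : List E | t.length = N ∧
      ∀ k ≤ N, (j : ℝ) ≤ h (pos vec u + pos vec (t.take k))}, W vec φ 0 (u ++ t) := by
  rw [← S.union u N _ (fun t ht => ht.1)]
  refine measure_mono_ae ?_
  filter_upwards [S.nn] with X hX hX'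
  obtain ⟨t, ht, hXt⟩ := NN.extend S.inj hX hX'.1 N
  refine Set.mem_biUnion (show t ∈ _ from ⟨ht, fun k hk => ?_⟩) hXt
  rw [← Cyl.append_apply hXt (ht ▸ hk)]
  exact hX'.2 k hk

lemma Setting.K1 (S : Setting vec h e0 φ Q) {j : ℕ} {s : List E} (hs : FHL vec h j s)
    (γ : List E) {K : ℕ} (hγ : γ.length ≤ K) (N : ℕ) :
    Q (Cyl vec (s ++ γ) ∩ StayEv h (s ++ γ).length N j) *
      W vec φ 0 (List.replicate (K + 1) e0 ++ γ) ≤ W vec φ 0 s * Q (StayEv h 0 N 0) := by
  set η := List.replicate (K + 1) e0 with hη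
  have hlt := FHL.lt h S.bound hs
  have hη1 : h (pos vec η) = K + 1 := by rw [hη, h_pos_replicate h S.up]; push_cast; ring
  refine (mul_le_mul_left (S.stay_le (s ++ γ) N j) _).trans ?_
  rw [← ENNReal.tsum_mul_right]
  set T := {t : List E | t.length = N ∧
      ∀ k ≤ N, (j : ℝ) ≤ h (pos vec (s ++ γ) + pos vec (t.take k))}
  calc _ ≤ ∑' t : T, W vec φ 0 s * W vec φ 0 (η ++ γ ++ t) := by
        refine ENNReal.tsum_le_tsum fun t => ?_
        refine W_compare vec S.one S.mono {z | (j : ℝ) ≤ h z} s γ t η ?_ ?_ ?_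
        · intro z hz
          obtain ⟨k, hk, rfl⟩ := mem_dep vec _ _ hz
          rw [zero_add]
          exact not_le.2 (hs.1 k hk)
        · intro z hz
          obtain ⟨k, hk, rfl⟩ := mem_dep vec _ _ hz
          rw [hη, List.length_replicate] at hk
          have hk' : (k : ℝ) ≤ K := by exact_mod_cast Nat.lt_succ_iff.1 hk
          simp only [Set.mem_setOf_eq, map_add, map_sub, hη1, not_le]
          rw [hη, List.take_replicate, min_eq_left hk.le, h_pos_replicate h S.up]
          linarith
        · intro z hz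
          obtain ⟨k, hk, rfl⟩ := mem_dep vec _ _ hz
          have := t.2.2 k (t.2.1 ▸ hk.le)
          rwa [pos_append] at this
    _ = W vec φ 0 s * Q (⋃ t ∈ T, Cyl vec (η ++ γ ++ t)) := by
        rw [ENNReal.tsum_mul_left, S.union _ N T (fun t ht => ht.1)]
    _ ≤ _ := by
        refine mul_le_mul_right (measure_mono ?_) _
        intro X hX
        obtain ⟨t, ht, hXt⟩ := Set.mem_iUnion₂.1 hX
        intro k hk
        rw [zero_add, Nat.cast_zero]
        by_cases k1 : k ≤ η.length
        · rw [Cyl.of_append (Cyl.of_append hXt) k k1, hη, List.take_replicate,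
            h_pos_replicate h S.up]
          positivity
        obtain ⟨k', rfl⟩ := Nat.exists_eq_add_of_le (not_le.1 k1).le
        by_cases k2 : k' ≤ γ.length
        · rw [Cyl.append_apply (Cyl.of_append hXt) k2, map_add, hη1]
          have a1 := h_pos_ge h S.bound (γ.take k')
          have a2 : ((γ.take k').length : ℝ) ≤ K := by
            exact_mod_cast (List.length_take_le' _ _).trans hγ
          linarith
        obtain ⟨k'', rfl⟩ := Nat.exists_eq_add_of_le (not_le.1 k2).le
        have a1 := ht.2 k'' (by omega)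
        rw [← add_assoc, ← List.length_append, Cyl.append_apply hXt (by rw [ht.1]; omega)]
        simp only [pos_append, map_add, hη1] at a1 ⊢
        have : (0 : ℝ) ≤ K := Nat.cast_nonneg K
        linarith

lemma Setting.K2 (S : Setting vec h e0 φ Q) {j : ℕ} {s : List E} (hs : FHL vec h j s) (N : ℕ) :
    W vec φ 0 s * Q (StayEv h 0 N 0) ≤ Q (Cyl vec s ∩ StayEv h s.length N j) := by
  have h1 : Q (StayEv h 0 N 0) ≤ Q (Cyl vec [] ∩ StayEv h ([] : List E).length N 0) := by
    refine measure_mono_ae ?_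
    filter_upwards [S.nn] with X hX hX'
    exact ⟨NN.zero hX, hX'⟩
  refine (mul_le_mul_right (h1.trans (S.stay_le [] N 0)) _).trans ?_
  set T := {t : List E | t.length = N ∧
      ∀ k ≤ N, ((0 : ℕ) : ℝ) ≤ h (pos vec [] + pos vec (t.take k))}
  have hj : (j : ℝ) ≤ h (pos vec s) := by simpa using hs.2
  have key : ∀ t ∈ T, ∀ k ≤ N, (j : ℝ) ≤ h (pos vec s + pos vec (t.take k)) := by
    intro t ht k hk
    have := ht.2 k hk
    simp only [Nat.cast_zero, pos_nil, zero_add] at this
    rw [map_add]
    linarith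
  rw [← ENNReal.tsum_mul_left]
  calc _ = ∑' t : T, W vec φ 0 (s ++ t) := by
        refine tsum_congr fun t => ?_
        refine W_fresh vec S.one {z | (j : ℝ) ≤ h z} s t ?_ ?_
        · intro z hz
          obtain ⟨k, hk, rfl⟩ := mem_dep vec _ _ hz
          rw [zero_add]
          exact not_le.2 (hs.1 k hk)
        · intro z hz
          obtain ⟨k, hk, rfl⟩ := mem_dep vec _ _ hz
          exact key t t.2 k (t.2.1 ▸ hk.le)
    _ = Q (⋃ t ∈ T, Cyl vec (s ++ t)) := (S.union _ N T (fun t ht => ht.1)).symm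
    _ ≤ _ := by
        refine measure_mono fun X hX => ?_
        obtain ⟨t, ht, hXt⟩ := Set.mem_iUnion₂.1 hX
        refine ⟨Cyl.of_append hXt, fun k hk => ?_⟩
        rw [Cyl.append_apply hXt (ht.1 ▸ hk)]
        exact key t ht k hk

lemma Setting.stop (S : Setting vec h e0 φ Q) (j : ℕ) (H A : Set (ℕ → V)) (α : ℝ≥0∞)
    (hH : ∀ X ∈ H, X ∈ NN vec → ∃ n, First (fun k => h (X k)) j n ∧
      ∀ Y : ℕ → V, (∀ k ≤ n, Y k = X k) → Y ∈ A)
    (hα : ∀ s, FHL vec h j s → Q (Cyl vec s ∩ H) ≤ α * Q (Cyl vec s)) : Q H ≤ α * Q A := by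
  let T : Set (List E) := {s | FHL vec h j s ∧ Cyl vec s ⊆ A}
  calc Q H ≤ Q (⋃ s ∈ T, Cyl vec s ∩ H) := by
        refine measure_mono_ae ?_
        filter_upwards [S.nn] with X hX hX'
        obtain ⟨n, hn, hA⟩ := hH X hX' hX
        obtain ⟨s, rfl, hs⟩ := hX n
        refine Set.mem_biUnion (show s ∈ T from ⟨(Cyl.first_iff h hs j).1 hn, fun Y hY => ?_⟩)
          ⟨hs, hX'⟩
        exact hA Y fun k hk => (hY k hk).trans (hs k hk).symm
    _ ≤ ∑' s : T, Q (Cyl vec s ∩ H) := measure_biUnion_le _ (Set.to_countable T) _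
    _ ≤ ∑' s : T, α * Q (Cyl vec s) := ENNReal.tsum_le_tsum fun s => hα s s.2.1
    _ = α * Q (⋃ s ∈ T, Cyl vec s) := by
        rw [ENNReal.tsum_mul_left, measure_biUnion (Set.to_countable T) ?_ (fun t _ => meas_Cyl _)]
        intro t ht t' ht' hne
        refine Set.disjoint_left.2 fun X h1 h2 => hne ?_
        exact Cyl.unique S.inj _ _ h1 h2
          (((Cyl.first_iff h h1 j).2 ht.1).unique ((Cyl.first_iff h h2 j).2 ht'.1))
    _ ≤ α * Q A := mul_le_mul_right (measure_mono (Set.iUnion₂_subset fun s hs => hs.2)) _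

end Pool.Agent.H791Z.ERW
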