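import Mathlib
import Pool.Agent.H791Z.ERW.Core

/-! Renewal and zero speed. -/

set_option maxHeartbeats 400000

namespace Pool.Agent.H791Z.ERW

open Finset Filter MeasureTheory
open scoped ENNReal

variable {V E : Type} [AddCommGroup V] {vec : E → V} {h : V →+ ℝ}
  [DecidableEq V] [MeasurableSpace V] [DiscreteMeasurableSpace V] [Fintype E] {e0 : E}
  {φ : List E → ℝ≥0∞} {Q : Measure (ℕ → V)}

variable (h) in
/-- the event `Good` -/
def GoodEv (K N j : ℕ) : Set (ℕ → V) := {X | Good (fun k => h (X k)) K N j}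

lemma Setting.good_le (S : Setting vec h e0 φ Q) (K : ℕ) : ∃ c : ℝ≥0∞, c ≠ ⊤ ∧ ∀ (N j : ℕ)
    (s : List E), FHL vec h j s →
    Q (Cyl vec s ∩ GoodEv h K N j) ≤ (c * Q (StayEv h 0 N 0)) * Q (Cyl vec s) := by
  have hfin := List.finite_length_le E K
  refine ⟨∑ γ ∈ hfin.toFinset, (W vec φ 0 (List.replicate (K + 1) e0 ++ γ))⁻¹, ?_, ?_⟩
  · exact ENNReal.sum_ne_top.2 fun γ _ => ENNReal.inv_ne_top.2 (W_ne_zero vec S.ne _ _)
  intro N j s hs
  calc _ ≤ Q (⋃ γ ∈ hfin.toFinset, Cyl vec (s ++ γ) ∩ StayEv h (s ++ γ).length N j) := by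
        refine measure_mono_ae ?_
        filter_upwards [S.nn] with X hX hX'
        obtain ⟨h1, n, hn, a, ha, h2⟩ := hX'
        obtain rfl : n = s.length := hn.unique ((Cyl.first_iff h h1 j).2 hs)
        obtain ⟨γ, rfl, hγ⟩ := NN.extend S.inj hX h1 a
        refine Set.mem_biUnion (show γ ∈ (hfin.toFinset : Set (List E)) by simpa using ha) ⟨hγ, ?_⟩
        rw [List.length_append]
        exact h2
    _ ≤ ∑ γ ∈ hfin.toFinset, Q (Cyl vec (s ++ γ) ∩ StayEv h (s ++ γ).length N j) :=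
        measure_biUnion_finset_le _ _
    _ ≤ _ := by
        rw [sum_mul, sum_mul]
        refine sum_le_sum fun γ hγ => ?_
        have h1 := S.K1 hs γ (K := K) (by simpa using hγ) N
        have h0 := W_ne_zero vec S.ne 0 (List.replicate (K + 1) e0 ++ γ)
        have ht : W vec φ 0 (List.replicate (K + 1) e0 ++ γ) ≠ ⊤ := by
          refine ne_top_of_le_ne_top ENNReal.one_ne_top (prod_le_one' fun z _ => ?_)
          simpa [S.one] using S.mono [] _
        rw [S.cyl, mul_assoc, ← ENNReal.mul_le_iff_le_inv h0 ht, mul_comm, mul_comm (Q (StayEv h 0 N 0))]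
        exact h1

lemma Setting.chain (S : Setting vec h e0 φ Q) [IsProbabilityMeasure Q] (K N : ℕ) (α : ℝ≥0∞)
    (hα : ∀ (j : ℕ) (s : List E), FHL vec h j s →
      Q (Cyl vec s ∩ GoodEv h K N j) ≤ α * Q (Cyl vec s)) (r : ℕ) (T : Finset ℕ) :
    Q (⋂ k ∈ T, GoodEv h K N (r + (K + N + 1) * k)) ≤ α ^ T.card := by
  induction T using Finset.induction_on_max with
  | empty => simp
  | insert k T hk ih =>
    have hkT : k ∉ T := fun h' => lt_irrefl _ (hk k h')
    rw [card_insert_of_notMem hkT, pow_succ', set_biInter_insert]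
    refine le_trans (S.stop (r + (K + N + 1) * k) _ _ α ?_ ?_) (mul_le_mul_right ih _)
    · rintro X ⟨⟨n, hn, -⟩, hA⟩ hX
      refine ⟨n, hn, fun Y hY => Set.mem_iInter₂.2 fun i hi => ?_⟩
      obtain ⟨m, hm, a, ha, hst⟩ := Set.mem_iInter₂.1 hA i hi
      have hlt := hk i hi
      have gap := hm.gap (NN.y0 h hX) (NN.ystep h S.bound hX) hn.2 (K + N) (by nlinarith)
      refine ⟨m, ⟨fun l hl => ?_, ?_⟩, a, ha, fun l hl => ?_⟩
      · simp only [hY l (by omega)]; exact hm.1 l hl
      · simp only [hY m (by omega)]; exact hm.2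
      · simp only [hY (m + a + l) (by omega)]; exact hst l hl
    · intro s hs
      exact le_trans (measure_mono (Set.inter_subset_inter_right _ Set.inter_subset_left))
        (hα _ s hs)

open Classical in
lemma Setting.few_good (S : Setting vec h e0 φ Q) [IsProbabilityMeasure Q] (K N : ℕ)
    (hα : ∀ (j : ℕ) (s : List E), FHL vec h j s →
      Q (Cyl vec s ∩ GoodEv h K N j) ≤ 2⁻¹ ^ 8 * Q (Cyl vec s)) :
    ∀ᵐ X ∂Q, ∀ᶠ q in atTop, ¬ ∃ r < K + N + 1, q ≤ 4 * ((range q).filter
      (fun k => Good (fun l => h (X l)) K N (r + (K + N + 1) * k))).card := by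
  refine ae_eventually_notMem (s := fun q => {X : ℕ → V | ∃ r < K + N + 1, q ≤ 4 * ((range q).filter
      (fun k => Good (fun l => h (X l)) K N (r + (K + N + 1) * k))).card}) ?_
  refine ne_top_of_le_ne_top (b := ∑' q : ℕ, ((K + N + 1 : ℕ) : ℝ≥0∞) * 2⁻¹ ^ q) ?_
    (ENNReal.tsum_le_tsum fun q => ?_)
  · rw [ENNReal.tsum_mul_left, ENNReal.tsum_geometric]
    exact ENNReal.mul_ne_top (ENNReal.natCast_ne_top _) (by simp)
  calc _ ≤ Q (⋃ r ∈ range (K + N + 1), ⋃ T ∈ (range q).powerset.filter (fun T => q ≤ 4 * T.card),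
          ⋂ k ∈ T, GoodEv h K N (r + (K + N + 1) * k)) := by
        refine measure_mono ?_
        rintro X ⟨r, hr, hq⟩
        refine Set.mem_biUnion (mem_coe.2 (mem_range.2 hr)) (Set.mem_biUnion
          (mem_coe.2 (mem_filter.2 ⟨mem_powerset.2 (filter_subset _ _), hq⟩)) ?_)
        exact Set.mem_iInter₂.2 fun k hk => (mem_filter.1 hk).2
    _ ≤ ∑ r ∈ range (K + N + 1), ∑ T ∈ (range q).powerset.filter (fun T => q ≤ 4 * T.card),
          Q (⋂ k ∈ T, GoodEv h K N (r + (K + N + 1) * k)) :=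
        (measure_biUnion_finset_le _ _).trans (sum_le_sum fun r _ => measure_biUnion_finset_le _ _)
    _ ≤ ∑ _r ∈ range (K + N + 1), (2⁻¹ : ℝ≥0∞) ^ q := by
        refine sum_le_sum fun r _ => ?_
        refine (sum_le_card_nsmul _ _ ((2⁻¹ : ℝ≥0∞) ^ (q + q)) fun T hT => ?_).trans ?_
        · refine (S.chain K N _ hα r T).trans ?_
          rw [← pow_mul]
          exact pow_le_pow_right_of_le_one' (by simp) (by have := (mem_filter.1 hT).2; omega)
        · have h1 : (((range q).powerset.filter (fun T => q ≤ 4 * T.card)).card : ℝ≥0∞) ≤ 2 ^ q := by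
            have := card_filter_le (range q).powerset (fun T => q ≤ 4 * T.card)
            rw [card_powerset, card_range] at this
            exact_mod_cast this
          rw [nsmul_eq_mul]
          refine (mul_le_mul_left h1 _).trans_eq ?_
          rw [pow_add, ← mul_assoc, ← mul_pow, ENNReal.mul_inv_cancel (by simp) (by simp), one_pow,
            one_mul]
    _ = _ := by rw [sum_const, card_range, nsmul_eq_mul]

lemma Setting.speed_zero (S : Setting vec h e0 φ Q) [IsProbabilityMeasure Q]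
    (hρ : ⨅ N, Q (StayEv h 0 N 0) = 0) :
    ∀ᵐ X ∂Q, ∀ C : ℕ, 1 ≤ C → ¬ ∃ᶠ n : ℕ in atTop, (n : ℝ) ≤ C * h (X n) := by
  classical
  have : ∀ K, ∃ N, ∀ (j : ℕ) (s : List E), FHL vec h j s →
      Q (Cyl vec s ∩ GoodEv h K N j) ≤ 2⁻¹ ^ 8 * Q (Cyl vec s) := by
    intro K
    obtain ⟨c, hc, hb⟩ := S.good_le K
    have h1 : ⨅ N, c * Q (StayEv h 0 N 0) < 2⁻¹ ^ 8 := by
      rw [← ENNReal.mul_iInf' (fun h' => absurd h' hc) (fun _ => inferInstance), hρ, mul_zero]
      exact ENNReal.pow_pos (by simp) _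
    obtain ⟨N, hN⟩ := iInf_lt_iff.1 h1
    exact ⟨N, fun j s hs => (hb N j s hs).trans (mul_le_mul_left hN.le _)⟩
  choose Nf hNf using this
  filter_upwards [S.nn, ae_all_iff.2 fun K => S.few_good K (Nf K) (hNf K)] with X hX hg C hC hf
  let L : ℕ → ℕ := fun i => Nat.rec 0 (fun _ l => l + Nf (8 * C * l) + 1) i
  have hw := windows (y := fun l => h (X l)) (NN.y0 h hX) (NN.ystep h S.bound hX) hC hf L (fun i => Nf (8 * C * L i))
    (fun i => le_rfl)
  have hev : ∀ᶠ M in atTop, ∀ i ∈ range (8 * C), ¬ M ≤ 2 * ((range M).filter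
      (fun j => Good (fun l => h (X l)) (8 * C * L i) (Nf (8 * C * L i)) j)).card := by
    rw [eventually_all_finset]
    intro i _
    set K := 8 * C * L i
    have ht : Tendsto (fun M => M / (K + Nf K + 1) + 1) atTop atTop :=
      tendsto_atTop_mono (fun M => Nat.le_succ _) (Nat.tendsto_div_const_atTop (by omega))
    filter_upwards [ht.eventually (hg K), eventually_ge_atTop (K + Nf K + 1)] with M h1 h2 h3
    exact h1 (residue _ (by omega) h2 h3)
  obtain ⟨M, ⟨i, hi, h1⟩, h2⟩ := (hw.and_eventually hev).exists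
  exact h2 i (mem_range.2 hi) h1

variable (h) in
/-- level `j` is reached and then left downwards, by time `n` -/
def Back (j n : ℕ) : Set (ℕ → V) :=
  {X | ∃ a m, a + m ≤ n ∧ First (fun k => h (X k)) j a ∧ h (X (a + m)) < j}

omit [DecidableEq V] in
lemma meas_Back (j n : ℕ) : MeasurableSet (Back h j n) := by
  refine measurableSet_setOf.2 (Measurable.exists fun a => Measurable.exists fun m =>
    Measurable.and measurable_const (Measurable.and (Measurable.and ?_ ?_) ?_))
  · exact Measurable.forall fun k => Measurable.imp measurable_const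
      (meas_coord k (fun v => h v < j))
  · exact meas_coord a (fun v => (j : ℝ) ≤ h v)
  · exact meas_coord (a + m) (fun v => h v < j)

lemma Setting.back_le (S : Setting vec h e0 φ Q) [IsProbabilityMeasure Q] {j : ℕ} {s : List E}
    (hs : FHL vec h j s) : Q (Cyl vec s ∩ ⋃ n, Back h j n) ≤
      (1 - ⨅ N, Q (StayEv h 0 N 0)) * Q (Cyl vec s) := by
  have hsub : Cyl vec s ∩ ⋃ n, Back h j n ⊆ ⋃ N, Cyl vec s \ StayEv h s.length N j := by
    rintro X ⟨h1, h2⟩
    obtain ⟨n, a, m, -, ha, hm⟩ := Set.mem_iUnion.1 h2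
    obtain rfl : a = s.length := ha.unique ((Cyl.first_iff h h1 j).2 hs)
    exact Set.mem_iUnion.2 ⟨m, h1, fun h' => absurd (h' m le_rfl) (not_le.2 hm)⟩
  refine (measure_mono hsub).trans ?_
  rw [Monotone.measure_iUnion]
  · refine iSup_le fun N => ?_
    have h1 := measure_inter_add_diff (μ := Q) (Cyl vec s) (meas_StayEv h s.length N j)
    have h2 := S.K2 hs N
    rw [← S.cyl] at h2
    have h3 : (⨅ N, Q (StayEv h 0 N 0)) * Q (Cyl vec s) ≤ Q (Cyl vec s ∩ StayEv h s.length N j) := by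
      rw [mul_comm]
      exact (mul_le_mul_right (iInf_le _ N) _).trans h2
    rw [ENNReal.sub_mul (fun _ _ => measure_ne_top _ _), one_mul]
    refine ENNReal.le_sub_of_add_le_left
      (ne_top_of_le_ne_top (measure_ne_top Q _) h3) ?_
    exact (add_le_add_left h3 _).trans_eq h1
  · intro N N' hN X hX
    exact ⟨hX.1, fun h' => hX.2 fun k hk => h' k (hk.trans hN)⟩

lemma Setting.renewal (S : Setting vec h e0 φ Q) [IsProbabilityMeasure Q]
    (hρ : ⨅ N, Q (StayEv h 0 N 0) ≠ 0) (k : ℕ) :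
    Q (⋂ j, ⋃ n, Back h (k + j) n) = 0 := by
  set ρ := ⨅ N, Q (StayEv h 0 N 0)
  set H := ⋂ j, ⋃ n, Back h (k + j) n with hH
  let A : ℕ → Set (ℕ → V) := fun J => ⋂ j ∈ range J, ⋃ n, Back h (k + j) n
  have mono : ∀ j, Monotone (Back h j) := by
    rintro j n n' hn X ⟨a, m, h1, h2⟩
    exact ⟨a, m, h1.trans hn, h2⟩
  have h1 : ∀ J, Q H ≤ (1 - ρ) * Q (A J) := by
    intro J
    have hsub : H ⊆ ⋃ n, H ∩ ⋂ j ∈ range J, Back h (k + j) n := by
      intro X hX
      choose f hf using fun j => Set.mem_iUnion.1 (Set.mem_iInter.1 hX j)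
      exact Set.mem_iUnion.2 ⟨(range J).sup f, hX, Set.mem_iInter₂.2 fun j hj =>
        mono _ (le_sup hj) (hf j)⟩
    refine (measure_mono hsub).trans ?_
    rw [Monotone.measure_iUnion]
    · refine iSup_le fun n => ?_
      refine S.stop (k + n) _ _ _ ?_ ?_
      · rintro X ⟨hX, hA⟩ hN
        obtain ⟨_, b, _, -, hb, -⟩ := Set.mem_iUnion.1 (Set.mem_iInter.1 hX n)
        refine ⟨b, hb, fun Y hY => Set.mem_iInter₂.2 fun j hj => Set.mem_iUnion.2 ⟨n, ?_⟩⟩
        obtain ⟨a, m, ham, ha, hm⟩ := Set.mem_iInter₂.1 hA j hj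
        have h0 : First (fun l => h (X l)) 0 0 := ⟨fun l hl => absurd hl (Nat.not_lt_zero l),
          by simp [NN.y0 h hN]⟩
        have hnb : n ≤ b := by
          have h2 := step_le (y := fun l => h (X l)) (NN.ystep h S.bound hN) 0 b
          have h3 := hb.2
          simp only [zero_add, NN.y0 h hN] at h2 h3
          have h4 : ((k + n : ℕ) : ℝ) ≤ b := h3.trans h2
          have : k + n ≤ b := by exact_mod_cast h4
          omega
        refine ⟨a, m, ham, ⟨fun l hl => ?_, ?_⟩, ?_⟩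
        · simp only [hY l (by omega)]; exact ha.1 l hl
        · simp only [hY a (by omega)]; exact ha.2
        · simp only [hY (a + m) (by omega)]; exact hm
      · intro s hs
        refine le_trans (measure_mono (Set.inter_subset_inter_right _ ?_)) (S.back_le hs)
        exact Set.inter_subset_left.trans (Set.iInter_subset _ n)
    · intro n n' hn X hX
      exact ⟨hX.1, Set.mem_iInter₂.2 fun j hj => mono _ hn (Set.mem_iInter₂.1 hX.2 j hj)⟩
  have h2 : Q H = ⨅ J, Q (A J) := by
    rw [← Antitone.measure_iInter]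
    · congr 1
      ext X
      simp only [hH, A, Set.mem_iInter, mem_range]
      exact ⟨fun h' J j _ => h' j, fun h' j => h' (j + 1) j (Nat.lt_succ_self j)⟩
    · intro J J' hJ X hX
      exact Set.mem_iInter₂.2 fun j hj => Set.mem_iInter₂.1 hX j (range_mono hJ hj)
    · intro J
      exact (MeasurableSet.biInter (Set.to_countable _) fun j _ =>
        MeasurableSet.iUnion fun n => meas_Back _ _).nullMeasurableSet
    · exact ⟨0, measure_ne_top _ _⟩
  have h3 : Q H ≤ (1 - ρ) * Q H := by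
    conv_rhs => rw [h2, ENNReal.mul_iInf' (fun h' => absurd h' (by simp)) (fun _ => inferInstance)]
    exact le_iInf h1
  by_contra hne
  have h4 : (1 - ρ) * Q H < 1 * Q H :=
    ENNReal.mul_lt_mul_left hne (measure_ne_top _ _)
      (ENNReal.sub_lt_self ENNReal.one_ne_top one_ne_zero hρ)
  rw [one_mul] at h4
  exact absurd h3 (not_le.2 h4)

theorem Setting.main (S : Setting vec h e0 φ Q) [IsProbabilityMeasure Q] :
    ∀ᵐ X ∂Q, ¬ Tendsto (fun n => h (X n)) atTop atTop →
      ∀ C : ℕ, 1 ≤ C → ∀ᶠ n : ℕ in atTop, C * h (X n) < n := by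
  by_cases hρ : ⨅ N, Q (StayEv h 0 N 0) = 0
  · filter_upwards [S.speed_zero hρ] with X hX _ C hC
    exact (not_frequently.1 (hX C hC)).mono fun n hn => not_le.1 hn
  · have := ae_all_iff.2 fun k => measure_eq_zero_iff_ae_notMem.1 (S.renewal hρ k)
    filter_upwards [this] with X hX hnt C hC
    by_contra hcon
    have hf : ∃ᶠ n : ℕ in atTop, (n : ℝ) ≤ C * h (X n) :=
      (not_eventually.1 hcon).mono fun n hn => not_lt.1 hn
    rw [tendsto_atTop, not_forall] at hnt
    obtain ⟨b, hb⟩ := hnt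
    rw [not_eventually] at hb
    obtain ⟨k, hk⟩ := exists_nat_ge b
    refine hX k (Set.mem_iInter.2 fun j => ?_)
    obtain ⟨a, ha⟩ := exists_first (unbounded_of_freq (y := fun n => h (X n)) hf hC (k + j))
    obtain ⟨n, h1, h2⟩ := (hb.and_eventually (eventually_ge_atTop a)).exists
    obtain ⟨m, rfl⟩ := Nat.exists_eq_add_of_le h2
    refine Set.mem_iUnion.2 ⟨a + m, a, m, le_rfl, ha, ?_⟩
    have : (0 : ℝ) ≤ j := Nat.cast_nonneg j
    push_cast
    linarith [not_le.1 h1]

end Pool.Agent.H791Z.ERW
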