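import Mathlib
import Pool.Agent.H791Z.ERW.Speed

/-! From the excited random walk in an i.i.d. environment to the abstract setting. -/

set_option maxHeartbeats 400000

namespace Pool.Agent.H791Z.ERW

open Finset Filter MeasureTheory ProbabilityTheory
open scoped ENNReal

variable {V E : Type}

/-- weight of a list of steps read from one stack, starting at depth `k` -/
noncomputable def psi (σ : E → ℕ → ℝ) : ℕ → List E → ℝ≥0∞
  | _, [] => 1
  | k, e :: l => ENNReal.ofReal (σ e k) * psi σ (k + 1) l

lemma psi_append (σ : E → ℕ → ℝ) (l l' : List E) : ∀ k,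
    psi σ k (l ++ l') = psi σ k l * psi σ (k + l.length) l' := by
  induction l with
  | nil => intro k; simp [psi]
  | cons e l ih => intro k; simp [psi, ih, mul_assoc, add_assoc, add_comm 1]

lemma psi_le_one {σ : E → ℕ → ℝ} (h : ∀ e k, σ e k ≤ 1) (l : List E) : ∀ k, psi σ k l ≤ 1 := by
  induction l with
  | nil => intro k; simp [psi]
  | cons e l ih => intro k; exact mul_le_one' (ENNReal.ofReal_le_one.2 (h e k)) (ih _)

lemma psi_ne_zero {σ : E → ℕ → ℝ} (h : ∀ e k, 0 < σ e k) (l : List E) : ∀ k, psi σ k l ≠ 0 := by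
  induction l with
  | nil => intro k; simp [psi]
  | cons e l ih => intro k; exact mul_ne_zero (ENNReal.ofReal_pos.2 (h e k)).ne' (ih _)

lemma meas_psi (l : List E) : ∀ k, Measurable (fun σ : E → ℕ → ℝ => psi σ k l) := by
  induction l with
  | nil => intro k; exact measurable_const
  | cons e l ih =>
    intro k
    exact (((measurable_pi_apply k).comp (measurable_pi_apply e)).ennreal_ofReal).mul (ih _)

variable [AddCommGroup V] [DecidableEq V] (vec : E → V)

/-- quenched weight of a path -/
noncomputable def wt (w : V → E → ℕ → ℝ) (u : List E) : ℝ≥0∞ :=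
  ∏ z ∈ dep vec 0 u, psi (w z) 0 (loc vec z 0 u)

lemma meas_wt (u : List E) : Measurable (fun w : V → E → ℕ → ℝ => wt vec w u) :=
  Finset.measurable_prod _ fun z _ => (meas_psi _ 0).comp (measurable_pi_apply z)

lemma wt_snoc (w : V → E → ℕ → ℝ) (u : List E) (e : E) : wt vec w (u ++ [e]) =
    wt vec w u * ENNReal.ofReal (w (pos vec u) e (loc vec (pos vec u) 0 u).length) := by
  have hsub : dep vec 0 u ⊆ dep vec 0 (u ++ [e]) := by
    rw [dep_append]; exact subset_union_left
  have hmem : pos vec u ∈ dep vec 0 (u ++ [e]) := by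
    rw [dep_append]; exact mem_union_right _ (by simp [dep])
  have e1 : wt vec w u = ∏ z ∈ dep vec 0 (u ++ [e]), psi (w z) 0 (loc vec z 0 u) :=
    prod_subset hsub fun z _ hz => by rw [loc_eq_nil vec u 0 hz]; rfl
  rw [e1, wt]
  have e2 : ∀ z, psi (w z) 0 (loc vec z 0 (u ++ [e])) = psi (w z) 0 (loc vec z 0 u) *
      (if pos vec u = z then ENNReal.ofReal (w z e (loc vec z 0 u).length) else 1) := by
    intro z
    rw [loc_append, psi_append]
    simp only [zero_add, loc, List.append_nil]
    split_ifs <;> simp [psi]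
  simp only [e2]
  rw [prod_mul_distrib, prod_ite_eq, if_pos hmem]

variable [MeasurableSpace V] [DiscreteMeasurableSpace V] [Countable V] [Fintype E]

theorem setting_of_env (hinj : Function.Injective vec)
    {Ω : Type} [MeasurableSpace Ω] (μ : Measure Ω) [IsProbabilityMeasure μ]
    (ω : Ω → V → E → ℕ → ℝ) (X : ℕ → Ω → V) (hω : Measurable ω) (hX : ∀ n, Measurable (X n))
    (hind : iIndepFun (fun (z : V) (a : Ω) => ω a z) μ)
    (hid : ∀ z : V, IdentDistrib (fun a => ω a z) (fun a => ω a 0) μ μ)
    (hel : ∀ z e k, ∀ᵐ a ∂μ, 0 < ω a z e k)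
    (hsum : ∀ᵐ a ∂μ, ∀ z k, ∑ e, ω a z e k = 1)
    (h0 : ∀ᵐ a ∂μ, X 0 a = 0)
    (hstep : ∀ (n : ℕ) (x : Fin (n + 1) → V) (e : E) (A : Set (V → E → ℕ → ℝ)), MeasurableSet A →
      μ.real {a | ω a ∈ A ∧ (∀ m : Fin (n + 1), X (m : ℕ) a = x m) ∧
          X (n + 1) a = x (Fin.last n) + vec e} =
      ∫ a in {a | ω a ∈ A ∧ ∀ m : Fin (n + 1), X (m : ℕ) a = x m},
        ω a (x (Fin.last n)) e
          ((Finset.univ.filter (fun m : Fin (n + 1) => (m : ℕ) < n ∧ x m = x (Fin.last n))).card) ∂μ)
    (h : V →+ ℝ) (e0 : E) (hb : ∀ e, |h (vec e)| ≤ 1) (he : h (vec e0) = 1) :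
    Setting vec h e0 (fun l => ∫⁻ a, psi (ω a 0) 0 l ∂μ) (μ.map (fun a n => X n a)) := by
  classical
  set Xp : Ω → ℕ → V := fun a n => X n a with hXp
  have mX : Measurable Xp := measurable_pi_lambda _ hX
  have hpos : ∀ᵐ a ∂μ, ∀ z e k, 0 < ω a z e k :=
    ae_all_iff.2 fun z => ae_all_iff.2 fun e => ae_all_iff.2 fun k => hel z e k
  have hle : ∀ᵐ a ∂μ, ∀ z e k, ω a z e k ≤ 1 := by
    filter_upwards [hpos, hsum] with a h1 h2 z e k
    rw [← h2 z k]
    exact single_le_sum (f := fun e => ω a z e k) (fun e _ => (h1 z e k).le) (mem_univ e)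
  have mc : ∀ z e k, Measurable (fun w : V → E → ℕ → ℝ => w z e k) := fun z e k =>
    (measurable_pi_apply k).comp ((measurable_pi_apply e).comp (measurable_pi_apply z))
  have key : ∀ u : List E, (μ.restrict (Xp ⁻¹' Cyl vec u)).map ω =
      (μ.map ω).withDensity (fun w => wt vec w u) := by
    intro u
    induction u using List.reverseRecOn with
    | nil =>
      rw [Measure.restrict_eq_self_of_ae_mem]
      · exact (withDensity_one).symm
      · filter_upwards [h0] with a ha k hk
        obtain rfl : k = 0 := by simpa using hk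
        exact ha
    | append_singleton u e ih =>
      ext A hA
      have hs := hstep u.length (fun m => pos vec (u.take m)) e A hA
      have c1 : (Finset.univ.filter (fun m : Fin (u.length + 1) => (m : ℕ) < u.length ∧
          pos vec (u.take m) = pos vec (u.take (Fin.last u.length : ℕ)))).card =
          (loc vec (pos vec u) 0 u).length := by
        rw [length_loc]
        refine card_bij (fun m _ => (m : ℕ)) ?_ ?_ ?_
        · intro m hm
          simpa using hm
        · intro a _ b _ hab
          exact Fin.ext hab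
        · intro k hk
          rw [mem_filter, mem_range] at hk
          exact ⟨⟨k, by omega⟩, by simpa using hk, rfl⟩
      have c2 : {a | ω a ∈ A ∧ ∀ m : Fin (u.length + 1), X (m : ℕ) a = pos vec (u.take m)} =
          ω ⁻¹' A ∩ Xp ⁻¹' Cyl vec u := by
        ext a
        refine and_congr_right fun _ => ⟨fun h' k hk => h' ⟨k, by omega⟩, fun h' m => h' m ?_⟩
        exact Nat.lt_succ_iff.1 m.2
      have c3 : {a | ω a ∈ A ∧ (∀ m : Fin (u.length + 1), X (m : ℕ) a = pos vec (u.take m)) ∧
          X (u.length + 1) a = pos vec (u.take (Fin.last u.length : ℕ)) + vec e} =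
          ω ⁻¹' A ∩ Xp ⁻¹' Cyl vec (u ++ [e]) := by
        ext a
        refine and_congr_right fun _ => ⟨fun h' k hk => ?_, fun h' => ⟨fun m => ?_, ?_⟩⟩
        · rcases Nat.lt_or_ge k (u.length + 1) with h1 | h1
          · rw [List.take_append_of_le_length (Nat.lt_succ_iff.1 h1)]
            exact h'.1 ⟨k, h1⟩
          · obtain rfl : k = u.length + 1 := by simp at hk; omega
            rw [List.take_of_length_le (by simp)]
            simpa using h'.2
        · exact Cyl.of_append h' m (Nat.lt_succ_iff.1 m.2)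
        · simpa using Cyl.last h'
      simp only [c1, c2, c3] at hs
      simp only [Fin.val_last, List.take_length] at hs
      rw [Measure.map_apply hω hA, Measure.restrict_apply (hω hA), ← ofReal_measureReal, hs,
        ofReal_integral_eq_lintegral_ofReal, ← Measure.restrict_restrict (hω hA),
        ← setLIntegral_map hA (mc _ _ _).ennreal_ofReal hω, ih,
        setLIntegral_withDensity_eq_setLIntegral_mul _ (meas_wt vec u) (mc _ _ _).ennreal_ofReal hA,
        withDensity_apply _ hA]
      · simp only [wt_snoc, Pi.mul_apply]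
      · refine Integrable.of_bound ((mc _ _ _).comp hω).aestronglyMeasurable 1 (ae_restrict_of_ae ?_)
        filter_upwards [hpos, hle] with a h1 h2
        rw [Real.norm_of_nonneg (h1 _ _ _).le]
        exact h2 _ _ _
      · refine ae_restrict_of_ae ?_
        filter_upwards [hpos] with a h1
        exact (h1 _ _ _).le
  have cyl : ∀ u : List E, (μ.map Xp) (Cyl vec u) = ∫⁻ a, wt vec (ω a) u ∂μ := by
    intro u
    have := congrArg (fun ν : Measure (V → E → ℕ → ℝ) => ν Set.univ) (key u)
    simp only [Measure.map_apply hω MeasurableSet.univ, Set.preimage_univ,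
      Measure.restrict_apply_univ, withDensity_apply _ MeasurableSet.univ,
      Measure.restrict_univ] at this
    rw [Measure.map_apply mX (meas_Cyl u), this, lintegral_map (meas_wt vec u) hω]
  have mz : ∀ z, Measurable (fun a => ω a z) := fun z => (measurable_pi_apply z).comp hω
  have : IsProbabilityMeasure (μ.map Xp) := Measure.isProbabilityMeasure_map mX.aemeasurable
  refine ⟨hinj, hb, he, by simp [psi], ?_, ?_, ?_, ?_⟩
  · intro l l'
    refine lintegral_mono_ae ?_
    filter_upwards [hle] with a ha
    rw [psi_append]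
    exact mul_le_of_le_one_right' (psi_le_one (ha 0) _ _)
  · intro l hl
    replace hl := (lintegral_eq_zero_iff ((meas_psi l 0).comp (mz 0))).1 hl
    obtain ⟨a, h1, h2⟩ := (hl.and hpos).exists
    exact psi_ne_zero (h2 0) l 0 h1
  · intro u
    rw [cyl, W]
    have := lintegral_prod_eq_prod_lintegral_of_indepFun (dep vec 0 u)
      (fun z a => psi (ω a z) 0 (loc vec z 0 u))
      (hind.comp (fun z σ => psi σ 0 (loc vec z 0 u)) (fun z => meas_psi _ 0))
      (fun z => (meas_psi _ 0).comp (mz z))
    refine this.trans (prod_congr rfl fun z _ => ?_)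
    exact ((hid z).comp (meas_psi (loc vec z 0 u) 0)).lintegral_eq
  · have n1 : ∀ u : List E, ∀ᵐ Y ∂(μ.map Xp), Y ∉ Cyl vec u \ ⋃ e, Cyl vec (u ++ [e]) := by
      intro u
      rw [← measure_eq_zero_iff_ae_notMem, measure_diff (Set.iUnion_subset fun e Y hY =>
        Cyl.of_append hY) (MeasurableSet.iUnion fun e => meas_Cyl _).nullMeasurableSet
        (measure_ne_top _ _), measure_iUnion ?_ (fun e => meas_Cyl _), tsum_fintype]
      · refine tsub_eq_zero_of_le (le_of_eq ?_)
        simp only [cyl]
        rw [← lintegral_finset_sum (f := fun e a => wt vec (ω a) (u ++ [e])) _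
          (fun e _ => (meas_wt vec _).comp hω)]
        refine lintegral_congr_ae ?_
        filter_upwards [hpos, hsum] with a h1 h2
        simp only [wt_snoc]
        rw [← mul_sum, ← ENNReal.ofReal_sum_of_nonneg (fun e _ => (h1 _ _ _).le), h2,
          ENNReal.ofReal_one, mul_one]
      · intro e f hne
        refine Set.disjoint_left.2 fun Y h1 h2 => hne ?_
        simpa using Cyl.unique hinj _ _ h1 h2 (by simp)
    have n0 : ∀ᵐ Y ∂(μ.map Xp), Y ∈ Cyl vec [] := by
      refine (ae_map_iff mX.aemeasurable (meas_Cyl (vec := vec) [])).2 ?_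
      filter_upwards [h0] with a ha k hk
      obtain rfl : k = 0 := by simpa using hk
      exact ha
    filter_upwards [n0, ae_all_iff.2 n1] with Y h1 h2 n
    induction n with
    | zero => exact ⟨[], rfl, h1⟩
    | succ n ih =>
      obtain ⟨u, hu, hY⟩ := ih
      have : Y ∈ ⋃ e, Cyl vec (u ++ [e]) := by
        by_contra hc
        exact h2 u ⟨hY, hc⟩
      obtain ⟨e, he⟩ := Set.mem_iUnion.1 this
      exact ⟨u ++ [e], by simp [hu], he⟩

end Pool.Agent.H791Z.ERW
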