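import Mathlib
import Pool.Agent.H791Z.ERW.Env

/-! Zero directional speed of excited random walks that do not escape. -/

set_option maxHeartbeats 400000

namespace Pool.Agent.H791Z.ERW

open Finset Filter MeasureTheory ProbabilityTheory Topology

/-- the linear form of a direction -/
noncomputable def form {d : ℕ} (l : Fin d → ℝ) : (Fin d → ℤ) →+ ℝ where
  toFun := fun x => ∑ i, (x i : ℝ) * l i
  map_zero' := by simp
  map_add' := fun x y => by simp [add_mul, sum_add_distrib]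

lemma form_single {d : ℕ} (l : Fin d → ℝ) (i : Fin d) (c : ℤ) :
    form l (Pi.single i c) = c * l i := by
  change ∑ j, ((Pi.single i c : Fin d → ℤ) j : ℝ) * l j = _
  rw [sum_eq_single i]
  · simp
  · intro j _ hj; simp [Pi.single_eq_of_ne hj]
  · simp

lemma vec_inj (d : ℕ) : Function.Injective
    (fun e : Fin d × Bool => (Pi.single e.1 (if e.2 then (1 : ℤ) else -1) : Fin d → ℤ)) := by
  rintro ⟨i, b⟩ ⟨j, c⟩ h
  have h1 := congrFun h i
  by_cases hij : i = j
  · subst hij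
    simp only [Pi.single_eq_same] at h1
    cases b <;> cases c <;> simp_all
  · simp only [Pi.single_eq_same, Pi.single_eq_of_ne hij] at h1
    cases b <;> simp at h1

lemma form_le {d : ℕ} (l : Fin d → ℝ) (hl : ∀ i, |l i| ≤ 1) (x : Fin d → ℤ) :
    form l x ≤ d * √(∑ i, (x i : ℝ) ^ 2) := by
  change ∑ i, (x i : ℝ) * l i ≤ _
  have : ∀ i ∈ (univ : Finset (Fin d)), (x i : ℝ) * l i ≤ √(∑ i, (x i : ℝ) ^ 2) := by
    intro i _
    refine (le_abs_self _).trans ?_
    rw [abs_mul]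
    refine (mul_le_of_le_one_right (abs_nonneg _) (hl i)).trans (Real.abs_le_sqrt ?_)
    exact single_le_sum (f := fun i => (x i : ℝ) ^ 2) (fun j _ => sq_nonneg _) (mem_univ i)
  simpa using sum_le_card_nsmul _ _ _ this

theorem main (d : ℕ)
    (Ω : Type) [MeasurableSpace Ω] (μ : Measure Ω) [IsProbabilityMeasure μ]
    (ω : Ω → (Fin d → ℤ) → (Fin d × Bool) → ℕ → ℝ) (X : ℕ → Ω → (Fin d → ℤ))
    (hω : Measurable ω) (hX : ∀ n, Measurable (X n))
    (hind : iIndepFun (fun (z : Fin d → ℤ) (a : Ω) => ω a z) μ)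
    (hid : ∀ z : Fin d → ℤ, IdentDistrib (fun a => ω a z) (fun a => ω a 0) μ μ)
    (hel : ∀ (z : Fin d → ℤ) (e : Fin d × Bool) (k : ℕ), ∀ᵐ a ∂μ, 0 < ω a z e k)
    (hsum : ∀ᵐ a ∂μ, ∀ (z : Fin d → ℤ) (k : ℕ), ∑ e : Fin d × Bool, ω a z e k = 1)
    (h0 : ∀ᵐ a ∂μ, X 0 a = 0)
    (hstep : ∀ (n : ℕ) (x : Fin (n + 1) → (Fin d → ℤ)) (e : Fin d × Bool)
        (A : Set ((Fin d → ℤ) → (Fin d × Bool) → ℕ → ℝ)), MeasurableSet A →
      μ.real {a | ω a ∈ A ∧ (∀ m : Fin (n + 1), X (m : ℕ) a = x m) ∧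
          X (n + 1) a = x (Fin.last n) + Pi.single e.1 (if e.2 then (1 : ℤ) else -1)} =
      ∫ a in {a | ω a ∈ A ∧ ∀ m : Fin (n + 1), X (m : ℕ) a = x m},
        ω a (x (Fin.last n)) e
          ((Finset.univ.filter (fun m : Fin (n + 1) => (m : ℕ) < n ∧ x m = x (Fin.last n))).card) ∂μ)
    (l : Fin d → ℝ) (hl : l ≠ 0) :
    ∀ᵐ a ∂μ, ¬ Tendsto (fun n => √(∑ i, (X n a i : ℝ) ^ 2)) atTop atTop →
      Tendsto (fun n : ℕ => (∑ i, (X n a i : ℝ) * l i) / n) atTop (𝓝 0) := by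
  have mX : Measurable (fun a n => X n a) := measurable_pi_lambda _ hX
  have : IsProbabilityMeasure (μ.map (fun a n => X n a)) :=
    Measure.isProbabilityMeasure_map mX.aemeasurable
  have one : ∀ l' : Fin d → ℝ, (∀ i, |l' i| ≤ 1) → (∃ i, |l' i| = 1) →
      ∀ᵐ a ∂μ, ¬ Tendsto (fun n => √(∑ i, (X n a i : ℝ) ^ 2)) atTop atTop →
        ∀ C : ℕ, 1 ≤ C → ∀ᶠ n : ℕ in atTop, C * form l' (X n a) < n := by
    intro l' h1 ⟨i, hi⟩
    obtain ⟨b, hb⟩ : ∃ b : Bool, ((if b then (1 : ℤ) else -1 : ℤ) : ℝ) * l' i = 1 := by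
      rcases (abs_eq zero_le_one).1 hi with h | h
      · exact ⟨true, by simp [h]⟩
      · exact ⟨false, by simp [h]⟩
    have S := setting_of_env _ (vec_inj d) μ ω X hω hX hind hid hel hsum h0 hstep (form l') (i, b)
      (fun e => by
        rw [form_single, abs_mul]
        refine mul_le_one₀ ?_ (abs_nonneg _) (h1 _)
        split_ifs <;> simp)
      (by rw [form_single]; exact hb)
    filter_upwards [ae_of_ae_map mX.aemeasurable S.main] with a ha hn
    refine ha fun ht => hn ?_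
    have hd : (0 : ℝ) < d := by exact_mod_cast Fin.pos i
    refine tendsto_atTop_mono (fun n => ?_) (ht.atTop_div_const hd)
    rw [div_le_iff₀' hd]
    exact form_le l' h1 _
  obtain ⟨i0, hi0⟩ := Function.ne_iff.1 hl
  obtain ⟨i, -, hi⟩ := exists_max_image univ (fun i => |l i|) ⟨i0, mem_univ _⟩
  have hc : 0 < |l i| := lt_of_lt_of_le (abs_pos.2 hi0) (hi i0 (mem_univ _))
  set c := |l i| with hcdef
  have b1 : ∀ j, |l j / c| ≤ 1 := fun j => by
    rw [abs_div, abs_of_pos hc, div_le_one hc]; exact hi j (mem_univ _)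
  have b2 : |l i / c| = 1 := by rw [abs_div, abs_of_pos hc, div_self hc.ne']
  filter_upwards [one (fun j => l j / c) b1 ⟨i, b2⟩,
    one (fun j => -(l j / c)) (fun j => by rw [abs_neg]; exact b1 j) ⟨i, by rw [abs_neg]; exact b2⟩]
    with a h1 h2 hn
  rw [Metric.tendsto_nhds]
  intro ε hε
  obtain ⟨C, hC⟩ := exists_nat_gt (c / ε)
  have hC0 : (0 : ℝ) < C := lt_trans (by positivity) hC
  have hC1 : 1 ≤ C := by exact_mod_cast hC0
  filter_upwards [h1 hn C hC1, h2 hn C hC1, eventually_ge_atTop 1] with n k1 k2 k3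
  have e1 : form (fun j => l j / c) (X n a) = (∑ i, (X n a i : ℝ) * l i) / c := by
    change ∑ j : Fin d, (X n a j : ℝ) * (l j / c) = _
    rw [sum_div]
    exact sum_congr rfl fun j _ => by ring
  have e2 : form (fun j => -(l j / c)) (X n a) = -((∑ i, (X n a i : ℝ) * l i) / c) := by
    change ∑ j : Fin d, (X n a j : ℝ) * (-(l j / c)) = _
    rw [sum_div, ← sum_neg_distrib]
    exact sum_congr rfl fun j _ => by ring
  rw [e1] at k1
  rw [e2] at k2
  have hn' : (0 : ℝ) < n := by exact_mod_cast k3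
  set y := ∑ i, (X n a i : ℝ) * l i
  rw [div_lt_iff₀ hε] at hC
  have k4 : C * |y| < n * c := by
    rw [← div_lt_iff₀ hc, mul_div_assoc]
    rcases abs_cases y with h | h <;> rw [h.1]
    · exact k1
    · rwa [neg_div]
  rw [Real.dist_eq, sub_zero, abs_div, abs_of_pos hn', div_lt_iff₀ hn']
  have : (C : ℝ) * |y| < C * (ε * n) := by nlinarith
  exact lt_of_mul_lt_mul_left this hC0.le

end Pool.Agent.H791Z.ERW
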